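import Mathlib

set_option autoImplicit false

/-!
# Free `p`-convex Banach lattices

Real Banach lattices are expressed with Mathlib's type classes: `NormedAddCommGroup`,
`NormedSpace ℝ`, `CompleteSpace`, `Lattice`, `IsOrderedAddMonoid`, `PosSMulMono ℝ`
(translations and multiplication by nonnegative scalars preserve the order) and `HasSolidNorm`
(`|x| ≤ |y|` implies `‖x‖ ≤ ‖y‖`).
-/

namespace Pool.Agent.H47.FBL

universe u

/-- `IsPSum p x z` says that `z` is the element `(∑ i, |x i| ^ p) ^ (1 / p)` of the Banach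
lattice `X`: the least upper bound of the elements `∑ i, a i • x i`, where `a` runs over the
closed unit ball of the dual space of `ℓ_p^n`. -/
def IsPSum {X : Type u} [NormedAddCommGroup X] [NormedSpace ℝ X] [Lattice X]
    (p : ℝ) {n : ℕ} (x : Fin n → X) (z : X) : Prop :=
  IsLUB {y : X | ∃ a : Fin n → ℝ,
    (∀ t : Fin n → ℝ, ∑ i, a i * t i ≤ (∑ i, |t i| ^ p) ^ (1 / p)) ∧ y = ∑ i, a i • x i} z

/-- The Banach lattice `X` is `p`-convex with constant `1`:
`‖(∑ i, |x i| ^ p) ^ (1 / p)‖ ≤ (∑ i, ‖x i‖ ^ p) ^ (1 / p)` for all finite families. -/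
def IsPConvex (p : ℝ) (X : Type u) [NormedAddCommGroup X] [NormedSpace ℝ X] [Lattice X] : Prop :=
  ∀ (n : ℕ) (x : Fin n → X) (z : X), IsPSum p x z → ‖z‖ ≤ (∑ i, ‖x i‖ ^ p) ^ (1 / p)

/-- The bounded linear operator `S` is a lattice homomorphism. -/
def IsLatticeHom {X Y : Type*} [NormedAddCommGroup X] [NormedSpace ℝ X] [Lattice X]
    [NormedAddCommGroup Y] [NormedSpace ℝ Y] [Lattice Y] (S : X →L[ℝ] Y) : Prop :=
  ∀ f g : X, S (f ⊔ g) = S f ⊔ S g ∧ S (f ⊓ g) = S f ⊓ S g

/-- `(F, δ)` is the free `p`-convex Banach lattice over the Banach space `E`: `F` is `p`-convex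
with constant `1`, `δ : E → F` is a linear isometric embedding, and for every bounded linear
operator `T` from `E` to a Banach lattice `X` that is `p`-convex with constant `1` there is a
unique lattice homomorphism `S : F → X` with `S ∘ δ = T`, and `‖S‖ = ‖T‖`. -/
structure IsFreePConvex (p : ℝ) {E F : Type u} [NormedAddCommGroup E] [NormedSpace ℝ E]
    [NormedAddCommGroup F] [NormedSpace ℝ F] [Lattice F] (δ : E →L[ℝ] F) : Prop where
  convex : IsPConvex p F
  isometry : ∀ x : E, ‖δ x‖ = ‖x‖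
  lift : ∀ (X : Type u) [NormedAddCommGroup X] [NormedSpace ℝ X] [CompleteSpace X] [Lattice X]
    [IsOrderedAddMonoid X] [PosSMulMono ℝ X] [HasSolidNorm X], IsPConvex p X →
    ∀ T : E →L[ℝ] X, ∃ S : F →L[ℝ] X, IsLatticeHom S ∧ (∀ x : E, S (δ x) = T x) ∧ ‖S‖ = ‖T‖ ∧
      ∀ S' : F →L[ℝ] X, IsLatticeHom S' → (∀ x : E, S' (δ x) = T x) → S' = S

end Pool.Agent.H47.FBL
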