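import Mathlib

set_option autoImplicit false

namespace Pool.Agent.H47.NASandwich

open Finset

variable {V : Type*} [NormedAddCommGroup V] [NormedSpace ℝ V]

/-- Sandwich theorem: if convex combinations of `G - K‖·‖²` on a ball are dominated by
`‖x + ·‖ - 1`, there is a continuous linear functional in between. -/
theorem sandwich (x : V) (hx : ‖x‖ = 1) (G : V → ℝ) (K d : ℝ) (hd : 0 < d) (hG0 : G 0 = 0)
    (hG : ∀ (ι : Type) (t : Finset ι) (l : ι → ℝ) (w : ι → V), (∀ i ∈ t, 0 ≤ l i) →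
      ∑ i ∈ t, l i = 1 → (∀ i ∈ t, ‖w i‖ ≤ d) →
      ∑ i ∈ t, l i * (G (w i) - K * ‖w i‖ ^ 2) ≤ ‖x + ∑ i ∈ t, l i • w i‖ - 1) :
    ∃ ℓ : StrongDual ℝ V, (∀ w, ℓ w ≤ ‖x + w‖ - 1) ∧
      (∀ w, ‖w‖ ≤ d → G w ≤ ℓ w + K * ‖w‖ ^ 2) := by
  let s : Set (V × ℝ) := {q | ‖x + q.1‖ - 1 < q.2}
  let t0 : Set (V × ℝ) := {q | ‖q.1‖ ≤ d ∧ q.2 ≤ G q.1 - K * ‖q.1‖ ^ 2}
  have hsconv : Convex ℝ s := by
    intro a ha b hb α β hα hβ hαβ
    change ‖x + (α • a.1 + β • b.1)‖ - 1 < α * a.2 + β * b.2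
    have h1 : x + (α • a.1 + β • b.1) = α • (x + a.1) + β • (x + b.1) := by
      rw [smul_add, smul_add]
      have : x = α • x + β • x := by rw [← add_smul, hαβ, one_smul]
      nth_rewrite 1 [this]
      abel
    rw [h1]
    have h2 : ‖α • (x + a.1) + β • (x + b.1)‖ ≤ α * ‖x + a.1‖ + β * ‖x + b.1‖ := by
      refine (norm_add_le _ _).trans ?_
      rw [norm_smul, norm_smul, Real.norm_eq_abs, Real.norm_eq_abs, abs_of_nonneg hα,
        abs_of_nonneg hβ]
    have ha' : ‖x + a.1‖ - 1 < a.2 := ha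
    have hb' : ‖x + b.1‖ - 1 < b.2 := hb
    rcases eq_or_lt_of_le hα with h0 | h0
    · subst h0
      have : β = 1 := by linarith
      subst this
      linarith
    · have h3 : α * (‖x + a.1‖ - 1) < α * a.2 := mul_lt_mul_of_pos_left ha' h0
      have h4 : β * (‖x + b.1‖ - 1) ≤ β * b.2 := mul_le_mul_of_nonneg_left hb'.le hβ
      nlinarith
  have hsopen : IsOpen s := by
    apply isOpen_lt
    · exact ((continuous_const.add continuous_fst).norm).sub continuous_const
    · exact continuous_snd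
  have htconv : Convex ℝ (convexHull ℝ t0) := convex_convexHull ℝ t0
  have hdisj : Disjoint s (convexHull ℝ t0) := by
    rw [Set.disjoint_left]
    intro q hq hqt
    rw [_root_.convexHull_eq] at hqt
    obtain ⟨ι, t, l, z, hl, hl1, hz, hcm⟩ := hqt
    have hq' : ‖x + q.1‖ - 1 < q.2 := hq
    rw [Finset.centerMass_eq_of_sum_1 _ _ hl1] at hcm
    have h1 : q.1 = ∑ i ∈ t, l i • (z i).1 := by
      rw [← hcm]; simp [Prod.fst_sum]
    have h2 : q.2 = ∑ i ∈ t, l i * (z i).2 := by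
      rw [← hcm]; simp [Prod.snd_sum]
    have h3 := hG ι t l (fun i => (z i).1) hl hl1 (fun i hi => (hz i hi).1)
    have h4 : q.2 ≤ ∑ i ∈ t, l i * (G (z i).1 - K * ‖(z i).1‖ ^ 2) := by
      rw [h2]
      exact Finset.sum_le_sum (fun i hi => mul_le_mul_of_nonneg_left (hz i hi).2 (hl i hi))
    rw [← h1] at h3
    linarith
  obtain ⟨f, u, hf1, hf2⟩ := geometric_hahn_banach_open hsconv hsopen htconv hdisj
  -- decompose
  have hfdec : ∀ (w : V) (r : ℝ), f (w, r) = f (w, 0) + r * f (0, 1) := by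
    intro w r
    have : ((w, r) : V × ℝ) = (w, 0) + r • ((0, 1) : V × ℝ) := by
      ext <;> simp
    rw [this, map_add, map_smul, smul_eq_mul]
  set β := f (0, 1) with hβ
  have h00 : ((0 : V), (0 : ℝ)) ∈ convexHull ℝ t0 := by
    apply subset_convexHull
    refine ⟨by simp [hd.le], ?_⟩
    simp [hG0]
  have hu0 : u ≤ 0 := by
    have := hf2 _ h00
    have h1 : f ((0 : V), (0 : ℝ)) = 0 := by
      have : ((0 : V), (0 : ℝ)) = 0 := rfl
      rw [this, map_zero]
    rw [h1] at this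
    exact this
  have hpos : ∀ r : ℝ, 0 < r → r * β < u := by
    intro r hr
    have h1 : ((0 : V), r) ∈ s := by
      change ‖x + 0‖ - 1 < r
      rw [add_zero, hx]; linarith
    have h2 := hf1 _ h1
    rw [hfdec] at h2
    have h3 : f ((0 : V), (0 : ℝ)) = 0 := by
      have : ((0 : V), (0 : ℝ)) = 0 := rfl
      rw [this, map_zero]
    rw [h3, zero_add] at h2
    exact h2
  have hβneg : β < 0 := by
    have := hpos 1 one_pos
    linarith
  have hu : 0 ≤ u := by
    by_contra hneg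
    push Not at hneg
    -- take r = u / (2 β) > 0 : r β = u / 2 > u
    have hr : 0 < u / (2 * β) := div_pos_of_neg_of_neg hneg (by linarith)
    have := hpos _ hr
    have hβ0 : β ≠ 0 := hβneg.ne
    have h1 : u / (2 * β) * β = u / 2 := by
      field_simp
    rw [h1] at this
    linarith
  have hu' : u = 0 := le_antisymm hu0 hu
  -- the functional
  let ℓ : StrongDual ℝ V := (-β)⁻¹ • (f.comp (ContinuousLinearMap.inl ℝ V ℝ))
  have hℓ : ∀ w, ℓ w = (-β)⁻¹ * f (w, 0) := by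
    intro w; rfl
  have hnb : 0 < -β := by linarith
  refine ⟨ℓ, ?_, ?_⟩
  · intro w
    apply le_of_forall_gt
    intro r hr
    have h1 : (w, r) ∈ s := hr
    have h2 := hf1 _ h1
    rw [hfdec, hu'] at h2
    rw [hℓ, inv_mul_lt_iff₀ hnb]
    linarith
  · intro w hw
    have h1 : (w, G w - K * ‖w‖ ^ 2) ∈ convexHull ℝ t0 := by
      apply subset_convexHull
      exact ⟨hw, le_rfl⟩
    have h2 := hf2 _ h1
    rw [hfdec, hu'] at h2
    rw [hℓ]
    have h3 : G w - K * ‖w‖ ^ 2 ≤ (-β)⁻¹ * f (w, 0) := by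
      rw [le_inv_mul_iff₀ hnb]
      linarith
    linarith

end Pool.Agent.H47.NASandwich
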