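import Pool.Agent.H47.NACore
import Pool.Agent.H47.NASandwich

set_option autoImplicit false

namespace Pool.Agent.H47.NAPoint

open Finset

variable {E : Type*} [NormedAddCommGroup E] [NormedSpace ℝ E]

/-- A functional which is small on the common kernel of finitely many functionals is close to
their span. -/
theorem near_span {V : Type*} [NormedAddCommGroup V] [NormedSpace ℝ V] {ι : Type*} [Fintype ι]
    (ℓ : StrongDual ℝ V) (L : ι → StrongDual ℝ V) (c : ℝ) (hc : 0 ≤ c)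
    (h : ∀ w : V, (∀ i, L i w = 0) → |ℓ w| ≤ c * ‖w‖) :
    ∃ a : ι → ℝ, ‖ℓ - ∑ i, a i • L i‖ ≤ c := by
  let N : Submodule ℝ V := ⨅ i, LinearMap.ker (L i : V →ₗ[ℝ] ℝ)
  let ℓN : StrongDual ℝ N := ℓ.comp N.subtypeL
  obtain ⟨ℓ', hℓ', hℓn⟩ := exists_extension_norm_eq N ℓN
  have hmem : ∀ w : V, w ∈ N ↔ ∀ i, L i w = 0 := by
    intro w
    rw [Submodule.mem_iInf]
    exact forall_congr' (fun i => LinearMap.mem_ker)
  have hn : ‖ℓN‖ ≤ c := by
    apply ContinuousLinearMap.opNorm_le_bound _ hc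
    intro w
    exact h w.1 ((hmem w.1).mp w.2)
  have hker : ⨅ i, LinearMap.ker (L i : V →ₗ[ℝ] ℝ) ≤
      LinearMap.ker ((ℓ - ℓ' : StrongDual ℝ V) : V →ₗ[ℝ] ℝ) := by
    intro w hw
    rw [LinearMap.mem_ker]
    change ℓ w - ℓ' w = 0
    have := hℓ' ⟨w, hw⟩
    rw [sub_eq_zero]
    exact this.symm
  have hspan := mem_span_of_iInf_ker_le_ker hker
  rw [Submodule.mem_span_range_iff_exists_fun] at hspan
  obtain ⟨a, ha⟩ := hspan
  refine ⟨a, ?_⟩
  have h1 : ∑ i, a i • L i = ℓ - ℓ' := by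
    ext w
    have := congrArg (fun T : V →ₗ[ℝ] ℝ => T w) ha
    simpa using this
  rw [h1, sub_sub_cancel, hℓn]
  exact hn

/-- A functional on the dual which is small on `S^⊥` is close to a point of `E`. -/
theorem near_point (ℓ : StrongDual ℝ (StrongDual ℝ E)) (S : Finset E) (c : ℝ) (hc : 0 ≤ c)
    (h : ∀ w : StrongDual ℝ E, (∀ s ∈ S, w s = 0) → |ℓ w| ≤ c * ‖w‖) :
    ∃ y : E, ‖ℓ - NormedSpace.inclusionInDoubleDual ℝ E y‖ ≤ c := by
  obtain ⟨a, ha⟩ := near_span ℓ (fun s : S => NormedSpace.inclusionInDoubleDual ℝ E s.1) c hc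
    (fun w hw => h w (fun s hs => hw ⟨s, hs⟩))
  refine ⟨∑ s : S, a s • (s.1), ?_⟩
  rw [map_sum]
  simpa only [map_smul] using ha

theorem exists_point [CompleteSpace E] (p : ℝ) (hp : 1 ≤ p) (x' : StrongDual ℝ E) (hx' : ‖x'‖ = 1)
    (g : StrongDual ℝ E → ℝ) (hg1 : g x' = 1)
    (h2 : ∀ (ι : Type) (t : Finset ι) (l : ι → ℝ) (y : ι → StrongDual ℝ E) (M : ℝ),
      (∀ i ∈ t, 0 ≤ l i) → ∑ i ∈ t, l i = 1 → 0 ≤ M →
      (∀ x : E, ‖x‖ ≤ 1 → ∑ i ∈ t, l i * |y i x| ^ p ≤ M ^ p) →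
      (∀ i ∈ t, ‖y i‖ ≤ 2) →
      ∑ i ∈ t, l i * |g (y i)| ^ p ≤ M ^ p)
    (h3 : ∀ ε : ℝ, 0 < ε → ∃ S : Finset E, ∀ w : StrongDual ℝ E, ‖w‖ ≤ 1 / 16 →
      (∀ s ∈ S, w s = 0) → |g (x' + w) - 1| ≤ ε) :
    ∃ y : E, ‖y‖ ≤ 1 ∧ x' y = 1 := by
  obtain ⟨K, hK0, hK⟩ := NACore.star (E := E) p hp
  have hK' := hK x' hx' g h2
  obtain ⟨ℓ, hℓ1, hℓ2⟩ := NASandwich.sandwich x' hx' (fun w => g (x' + w) - 1) K (1/16)
    (by norm_num) (by simp [hg1])
    (by
      intro ι t l w hl hl1 hw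
      have := hK' ι t l w hl hl1 hw
      have h4 : ∑ i ∈ t, l i * (g (x' + w i) - 1 - K * ‖w i‖ ^ 2)
          = ∑ i ∈ t, l i * g (x' + w i) - ∑ i ∈ t, l i - K * ∑ i ∈ t, l i * ‖w i‖ ^ 2 := by
        rw [Finset.mul_sum, ← Finset.sum_sub_distrib, ← Finset.sum_sub_distrib]
        apply Finset.sum_congr rfl
        intro i _
        ring
      rw [h4, hl1]
      linarith)
  -- norm of ℓ at most one
  have hℓn : ‖ℓ‖ ≤ 1 := by
    apply ContinuousLinearMap.opNorm_le_bound _ zero_le_one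
    intro w
    have key : ∀ v : StrongDual ℝ E, ℓ v ≤ ‖v‖ := by
      intro v
      have h5 := hℓ1 v
      have h6 := norm_add_le x' v
      rw [hx'] at h6
      linarith
    rw [Real.norm_eq_abs, one_mul, abs_le]
    constructor
    · have := key (-w)
      rw [map_neg, norm_neg] at this
      linarith
    · exact key w
  have hℓx : 1 ≤ ℓ x' := by
    have := hℓ1 (-x')
    rw [add_neg_cancel, norm_zero, map_neg] at this
    linarith
  -- ℓ in the closure of the range of the canonical embedding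
  have hclose : ∀ η : ℝ, 0 < η → ∃ y : E, ‖ℓ - NormedSpace.inclusionInDoubleDual ℝ E y‖ ≤ η := by
    intro η hη
    -- choose t ≤ 1/16 with K t ≤ η/2, and ε = η t / 2
    obtain ⟨t, ht0, ht1, ht2⟩ : ∃ t : ℝ, 0 < t ∧ t ≤ 1/16 ∧ K * t ≤ η / 2 := by
      refine ⟨min (1/16) (η / (2 * (K + 1))), ?_, min_le_left _ _, ?_⟩
      · apply lt_min (by norm_num)
        positivity
      · have h7 : min (1/16) (η / (2 * (K + 1))) ≤ η / (2 * (K + 1)) := min_le_right _ _
        calc K * min (1/16) (η / (2 * (K + 1))) ≤ (K + 1) * (η / (2 * (K + 1))) := by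
              apply mul_le_mul (by linarith) h7 _ (by linarith)
              apply le_min (by norm_num)
              positivity
          _ = η / 2 := by field_simp
    obtain ⟨S, hS⟩ := h3 (η * t / 2) (by positivity)
    apply near_point ℓ S η hη.le
    intro w hw
    -- scaled estimate
    have est : ∀ v : StrongDual ℝ E, (∀ s ∈ S, v s = 0) → ‖v‖ = t → -(η * t) ≤ ℓ v := by
      intro v hv hvt
      have h8 := hS v (by rw [hvt]; exact ht1) hv
      have h9 := hℓ2 v (by rw [hvt]; exact ht1)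
      have h10 := (abs_le.mp h8).1
      rw [hvt] at h9
      have h11 : K * t ^ 2 ≤ η / 2 * t := by
        calc K * t ^ 2 = (K * t) * t := by ring
          _ ≤ η / 2 * t := mul_le_mul_of_nonneg_right ht2 ht0.le
      have h12 : g (x' + v) - 1 ≤ ℓ v + K * t ^ 2 := h9
      nlinarith
    rcases eq_or_ne w 0 with hw0 | hw0
    · rw [hw0]; simp
    have hwn : 0 < ‖w‖ := norm_pos_iff.mpr hw0
    have sc : ∀ e : ℝ, |e| = 1 → -(η * t) ≤ ℓ ((e * t / ‖w‖) • w) := by
      intro e he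
      apply est
      · intro s hs
        rw [_root_.smul_apply, hw s hs, smul_zero]
      · rw [norm_smul, Real.norm_eq_abs, abs_div, abs_mul, he, one_mul, abs_of_pos ht0,
          abs_of_pos hwn]
        field_simp
    have s1 := sc 1 (by norm_num)
    have s2 := sc (-1) (by norm_num)
    rw [map_smul, smul_eq_mul] at s1 s2
    rw [abs_le]
    have hq : 0 < t / ‖w‖ := by positivity
    constructor
    · have h13 : -(η * ‖w‖) * (t / ‖w‖) ≤ ℓ w * (t / ‖w‖) := by
        have : -(η * ‖w‖) * (t / ‖w‖) = -(η * t) := by field_simp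
        rw [this]
        calc -(η * t) ≤ 1 * t / ‖w‖ * ℓ w := s1
          _ = ℓ w * (t / ‖w‖) := by ring
      exact le_of_mul_le_mul_right h13 hq
    · have h13 : ℓ w * (t / ‖w‖) ≤ (η * ‖w‖) * (t / ‖w‖) := by
        have : (η * ‖w‖) * (t / ‖w‖) = η * t := by field_simp
        rw [this]
        have : -1 * t / ‖w‖ * ℓ w = - (ℓ w * (t / ‖w‖)) := by ring
        rw [this] at s2
        linarith
      exact le_of_mul_le_mul_right h13 hq
  -- closed range
  have hiso : Isometry (NormedSpace.inclusionInDoubleDualLi ℝ (E := E)) :=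
    (NormedSpace.inclusionInDoubleDualLi ℝ (E := E)).isometry
  have hcl : IsClosed (Set.range (NormedSpace.inclusionInDoubleDualLi ℝ (E := E))) := by
    have := hiso.isClosedEmbedding
    exact this.isClosed_range
  have hmem : ℓ ∈ Set.range (NormedSpace.inclusionInDoubleDualLi ℝ (E := E)) := by
    rw [← hcl.closure_eq, Metric.mem_closure_iff]
    intro η hη
    obtain ⟨y, hy⟩ := hclose (η / 2) (by linarith)
    refine ⟨NormedSpace.inclusionInDoubleDualLi ℝ y, ⟨y, rfl⟩, ?_⟩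
    rw [dist_eq_norm]
    have : ‖ℓ - NormedSpace.inclusionInDoubleDualLi ℝ y‖ ≤ η / 2 := hy
    linarith
  obtain ⟨y, hy⟩ := hmem
  have hyn : ‖y‖ ≤ 1 := by
    have : ‖NormedSpace.inclusionInDoubleDualLi ℝ y‖ = ‖y‖ :=
      (NormedSpace.inclusionInDoubleDualLi ℝ (E := E)).norm_map y
    rw [← this, hy]
    exact hℓn
  refine ⟨y, hyn, ?_⟩
  have hxy : x' y = ℓ x' := by
    rw [← hy]
    rfl
  apply le_antisymm
  · calc x' y ≤ |x' y| := le_abs_self _
      _ ≤ ‖x'‖ * ‖y‖ := x'.le_opNorm y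
      _ ≤ 1 := by rw [hx', one_mul]; exact hyn
  · rw [hxy]; exact hℓx

end Pool.Agent.H47.NAPoint
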