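import Pool.Agent.H47.FBLModels
import Pool.Agent.H47.NAPoint

set_option autoImplicit false

namespace Pool.Agent.H47.FBL

universe u

open scoped ENNReal

attribute [local instance] latLp ordLp posLp

section hom

variable {X Y Z : Type*} [NormedAddCommGroup X] [NormedSpace ℝ X] [Lattice X]
    [NormedAddCommGroup Y] [NormedSpace ℝ Y] [Lattice Y]
    [NormedAddCommGroup Z] [NormedSpace ℝ Z] [Lattice Z]

theorem IsLatticeHom.comp {S : X →L[ℝ] Y} {R : Y →L[ℝ] Z} (hS : IsLatticeHom S)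
    (hR : IsLatticeHom R) : IsLatticeHom (R.comp S) := by
  intro f g
  refine ⟨?_, ?_⟩
  · change R (S (f ⊔ g)) = R (S f) ⊔ R (S g)
    rw [(hS f g).1, (hR _ _).1]
  · change R (S (f ⊓ g)) = R (S f) ⊓ R (S g)
    rw [(hS f g).2, (hR _ _).2]

theorem IsLatticeHom.smul_nonneg {S : X →L[ℝ] ℝ} (hS : IsLatticeHom S) {c : ℝ} (hc : 0 ≤ c) :
    IsLatticeHom (c • S) := by
  intro f g
  refine ⟨?_, ?_⟩
  · change c * S (f ⊔ g) = (c * S f) ⊔ (c * S g)
    rw [(hS f g).1, mul_max_of_nonneg _ _ hc]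
  · change c * S (f ⊓ g) = (c * S f) ⊓ (c * S g)
    rw [(hS f g).2, mul_min_of_nonneg _ _ hc]

end hom

/-- Coordinate functional on `PiLp`. -/
noncomputable def coord (q : ℝ≥0∞) {ι : Type u} [Fintype ι] [Fact (1 ≤ q)] (i : ι) :
    PiLp q (fun _ : ι => ℝ) →L[ℝ] ℝ := PiLp.proj (𝕜 := ℝ) q (fun _ : ι => ℝ) i

theorem coord_apply (q : ℝ≥0∞) {ι : Type u} [Fintype ι] [Fact (1 ≤ q)] (i : ι)
    (x : PiLp q (fun _ : ι => ℝ)) : coord q i x = x i := rfl

theorem coord_hom (q : ℝ≥0∞) {ι : Type u} [Fintype ι] [Fact (1 ≤ q)] (i : ι) :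
    IsLatticeHom (coord q i) := by
  intro f g
  exact ⟨rfl, rfl⟩

variable {E F : Type u} [NormedAddCommGroup E] [NormedSpace ℝ E] [CompleteSpace E]
  [NormedAddCommGroup F] [NormedSpace ℝ F] [CompleteSpace F] [Lattice F]

/-- Applying the universal property to `ℓ_p(ι)`. -/
theorem lift_lp {p : ℝ} (hp : 1 ≤ p) {δ : E →L[ℝ] F} (h : IsFreePConvex p δ)
    (ι : Type u) [Fintype ι] [Fact (1 ≤ ENNReal.ofReal p)]
    (T : E →L[ℝ] PiLp (ENNReal.ofReal p) (fun _ : ι => ℝ)) :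
    ∃ S : F →L[ℝ] PiLp (ENNReal.ofReal p) (fun _ : ι => ℝ), IsLatticeHom S ∧
      (∀ x : E, S (δ x) = T x) ∧ ‖S‖ = ‖T‖ ∧
      ∀ S' : F →L[ℝ] PiLp (ENNReal.ofReal p) (fun _ : ι => ℝ), IsLatticeHom S' →
        (∀ x : E, S' (δ x) = T x) → S' = S := by
  have : HasSolidNorm (PiLp (ENNReal.ofReal p) (fun _ : ι => ℝ)) := solidLp ENNReal.ofReal_ne_top
  exact h.lift (PiLp (ENNReal.ofReal p) (fun _ : ι => ℝ)) (convexLp hp) T

/-- Uniqueness of real valued lattice homomorphisms with given restriction to `E`. -/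
theorem uniq {p : ℝ} (hp : 1 ≤ p) {δ : E →L[ℝ] F} (h : IsFreePConvex p δ)
    {φ ψ : F →L[ℝ] ℝ} (hφ : IsLatticeHom φ) (hψ : IsLatticeHom ψ)
    (hφψ : ∀ x, φ (δ x) = ψ (δ x)) : φ = ψ := by
  have : Fact (1 ≤ ENNReal.ofReal p) := ⟨by
    rw [← ENNReal.ofReal_one]; exact ENNReal.ofReal_le_ofReal hp⟩
  let q := ENNReal.ofReal p
  -- embedding of ℝ
  let j : ℝ →L[ℝ] PiLp q (fun _ : PUnit.{u+1} => ℝ) :=
    (PiLp.continuousLinearEquiv q ℝ (fun _ : PUnit.{u+1} => ℝ)).symm.toContinuousLinearMap.comp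
      (ContinuousLinearMap.pi (fun _ => ContinuousLinearMap.id ℝ ℝ))
  have hj : ∀ r, coord q PUnit.unit (j r) = r := by
    intro r; rfl
  have hjh : IsLatticeHom j := by
    intro f g
    exact ⟨rfl, rfl⟩
  obtain ⟨S, -, -, -, hS⟩ := lift_lp hp h PUnit.{u+1} (j.comp (φ.comp δ))
  have h1 := hS (j.comp φ) (hφ.comp hjh) (fun x => rfl)
  have h2 := hS (j.comp ψ) (hψ.comp hjh) (fun x => by
    change j (ψ (δ x)) = j (φ (δ x))
    rw [hφψ])
  have h3 : j.comp φ = j.comp ψ := h1.trans h2.symm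
  ext f
  have h4 := congrArg (fun R : F →L[ℝ] PiLp q (fun _ : PUnit.{u+1} => ℝ) =>
    coord q PUnit.unit (R f)) h3
  exact h4

/-- Existence of the canonical extension of a functional. -/
theorem exists_hat {p : ℝ} (hp : 1 ≤ p) {δ : E →L[ℝ] F} (h : IsFreePConvex p δ)
    (y : StrongDual ℝ E) : ∃ ψ : F →L[ℝ] ℝ, IsLatticeHom ψ ∧ (∀ x, ψ (δ x) = y x) ∧ ‖ψ‖ = ‖y‖ := by
  have : Fact (1 ≤ ENNReal.ofReal p) := ⟨by
    rw [← ENNReal.ofReal_one]; exact ENNReal.ofReal_le_ofReal hp⟩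
  let q := ENNReal.ofReal p
  have hp0 : 0 < p := by linarith
  have htr : q.toReal = p := ENNReal.toReal_ofReal hp0.le
  let j : ℝ →L[ℝ] PiLp q (fun _ : PUnit.{u+1} => ℝ) :=
    (PiLp.continuousLinearEquiv q ℝ (fun _ : PUnit.{u+1} => ℝ)).symm.toContinuousLinearMap.comp
      (ContinuousLinearMap.pi (fun _ => ContinuousLinearMap.id ℝ ℝ))
  have hn : ∀ v : PiLp q (fun _ : PUnit.{u+1} => ℝ), ‖v‖ = |v PUnit.unit| := by
    intro v
    rw [PiLp.norm_eq_sum (by rw [htr]; exact hp0), htr]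
    simp only [Finset.univ_unique, Finset.sum_singleton, Real.norm_eq_abs]
    rw [← Real.rpow_mul (abs_nonneg _), mul_one_div_cancel hp0.ne', Real.rpow_one]
  obtain ⟨S, hS1, hS2, hS3, -⟩ := lift_lp hp h PUnit.{u+1} (j.comp y)
  have hTn : ‖j.comp y‖ ≤ ‖y‖ := by
    apply ContinuousLinearMap.opNorm_le_bound _ (norm_nonneg _)
    intro x
    rw [hn]
    exact y.le_opNorm x
  refine ⟨(coord q PUnit.unit).comp S, hS1.comp (coord_hom q _), ?_, ?_⟩
  · intro x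
    change coord q PUnit.unit (S (δ x)) = y x
    rw [hS2]
    rfl
  · apply le_antisymm
    · apply ContinuousLinearMap.opNorm_le_bound _ (norm_nonneg _)
      intro f
      calc ‖(coord q PUnit.unit).comp S f‖ = ‖S f‖ := by
            rw [hn]; rfl
        _ ≤ ‖S‖ * ‖f‖ := S.le_opNorm f
        _ ≤ ‖y‖ * ‖f‖ := by
          rw [hS3]
          exact mul_le_mul_of_nonneg_right hTn (norm_nonneg _)
    · apply ContinuousLinearMap.opNorm_le_bound _ (norm_nonneg _)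
      intro x
      have h1 : y x = (coord q PUnit.unit).comp S (δ x) := by
        change y x = coord q PUnit.unit (S (δ x))
        rw [hS2]
        rfl
      rw [h1]
      refine (ContinuousLinearMap.le_opNorm _ _).trans ?_
      rw [h.isometry]

/-- The defining inequality of the free norm, weighted form. -/
theorem p_ineq {p : ℝ} (hp : 1 ≤ p) {δ : E →L[ℝ] F} (h : IsFreePConvex p δ)
    (hat : StrongDual ℝ E → (F →L[ℝ] ℝ)) (hat1 : ∀ y, IsLatticeHom (hat y))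
    (hat2 : ∀ y x, hat y (δ x) = y x) (f : F) (hf : ‖f‖ ≤ 1)
    (ι : Type) (t : Finset ι) (l : ι → ℝ) (y : ι → StrongDual ℝ E) (M : ℝ)
    (hl : ∀ i ∈ t, 0 ≤ l i) (hM : 0 ≤ M)
    (hyM : ∀ x : E, ‖x‖ ≤ 1 → ∑ i ∈ t, l i * |y i x| ^ p ≤ M ^ p) :
    ∑ i ∈ t, l i * |hat (y i) f| ^ p ≤ M ^ p := by
  have : Fact (1 ≤ ENNReal.ofReal p) := ⟨by
    rw [← ENNReal.ofReal_one]; exact ENNReal.ofReal_le_ofReal hp⟩
  let q := ENNReal.ofReal p
  have hp0 : 0 < p := by linarith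
  have htr : q.toReal = p := ENNReal.toReal_ofReal hp0.le
  let κ : Type u := ULift.{u} {i // i ∈ t}
  let T : E →L[ℝ] PiLp q (fun _ : κ => ℝ) :=
    (PiLp.continuousLinearEquiv q ℝ (fun _ : κ => ℝ)).symm.toContinuousLinearMap.comp
      (ContinuousLinearMap.pi (fun k : κ => ((l k.down.1) ^ (1 / p)) • (y k.down.1)))
  have hT : ∀ x (k : κ), T x k = (l k.down.1) ^ (1 / p) * y k.down.1 x := by
    intro x k; rfl
  obtain ⟨S, hS1, hS2, hS3, -⟩ := lift_lp hp h κ T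
  -- sums over κ and over t
  have hsum : ∀ G : ι → ℝ, ∑ k : κ, G k.down.1 = ∑ i ∈ t, G i := by
    intro G
    rw [← Finset.sum_coe_sort t G]
    exact Fintype.sum_equiv Equiv.ulift _ _ (fun k => rfl)
  have hpow : ∀ a b : ℝ, 0 ≤ a → |a ^ (1 / p) * b| ^ p = a * |b| ^ p := by
    intro a b ha
    rw [abs_mul, abs_of_nonneg (by positivity : 0 ≤ a ^ (1 / p)),
      Real.mul_rpow (by positivity) (abs_nonneg _), ← Real.rpow_mul ha,
      one_div_mul_cancel hp0.ne', Real.rpow_one]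
  have hnorm : ∀ (v : PiLp q (fun _ : κ => ℝ)) (b : ι → ℝ),
      (∀ k : κ, v k = (l k.down.1) ^ (1 / p) * b k.down.1) →
      ‖v‖ ^ p = ∑ i ∈ t, l i * |b i| ^ p := by
    intro v b hv
    rw [PiLp.norm_eq_sum (by rw [htr]; exact hp0), htr, ← Real.rpow_mul (by positivity),
      one_div_mul_cancel hp0.ne', Real.rpow_one]
    rw [← hsum (fun i => l i * |b i| ^ p)]
    apply Finset.sum_congr rfl
    intro k _
    rw [hv k, Real.norm_eq_abs, hpow _ _ (hl _ k.down.2)]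
  have hTn : ‖T‖ ≤ M := by
    apply ContinuousLinearMap.opNorm_le_of_unit_norm hM
    intro x hx
    have h1 := hyM x hx.le
    rw [← hnorm (T x) (fun i => y i x) (fun k => hT x k)] at h1
    rwa [Real.rpow_le_rpow_iff (norm_nonneg _) hM hp0] at h1
  have hSk : ∀ k : κ, S f k = (l k.down.1) ^ (1 / p) * hat (y k.down.1) f := by
    intro k
    have hc : (coord q k).comp S = ((l k.down.1) ^ (1 / p)) • hat (y k.down.1) := by
      apply uniq hp h (hS1.comp (coord_hom q k))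
      · exact (hat1 _).smul_nonneg (Real.rpow_nonneg (hl _ k.down.2) _)
      · intro x
        change coord q k (S (δ x)) = (l k.down.1) ^ (1 / p) * hat (y k.down.1) (δ x)
        rw [hS2, hat2]
        exact hT x k
    have := congrArg (fun R : F →L[ℝ] ℝ => R f) hc
    exact this
  rw [← hnorm (S f) (fun i => hat (y i) f) hSk]
  apply Real.rpow_le_rpow (norm_nonneg _) _ hp0.le
  calc ‖S f‖ ≤ ‖S‖ * ‖f‖ := S.le_opNorm f
    _ ≤ M * 1 := by
      apply mul_le_mul _ hf (norm_nonneg _) hM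
      rw [hS3]; exact hTn
    _ = M := mul_one M

/-- Weak-star continuity on bounded sets, in the form needed. -/
theorem finite_dependence {p : ℝ} (hp : 1 ≤ p) {δ : E →L[ℝ] F} (h : IsFreePConvex p δ)
    (hat : StrongDual ℝ E → (F →L[ℝ] ℝ)) (hat1 : ∀ y, IsLatticeHom (hat y))
    (hat2 : ∀ y x, hat y (δ x) = y x) (f : F) (x' : StrongDual ℝ E) (hx' : ‖x'‖ ≤ 1)
    (ε : ℝ) (hε : 0 < ε) :
    ∃ S : Finset E, ∀ w : StrongDual ℝ E, ‖w‖ ≤ 1 / 16 → (∀ s ∈ S, w s = 0) →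
      |hat (x' + w) f - hat x' f| ≤ ε := by
  let K : Set (E → ℝ) := {φ | ∃ y : StrongDual ℝ E, ‖y‖ ≤ 2 ∧ ⇑y = φ}
  have hKb : ∀ (φ : K) (x : E), ‖φ.1 x‖ ≤ 2 * ‖x‖ := by
    rintro ⟨φ, y, hy, rfl⟩ x
    exact (y.le_opNorm x).trans (mul_le_mul_of_nonneg_right hy (norm_nonneg _))
  let T0 : E →ₗ[ℝ] BoundedContinuousFunction K ℝ :=
    { toFun := fun x => BoundedContinuousFunction.ofNormedAddCommGroup (fun φ : K => φ.1 x)
        ((continuous_apply x).comp continuous_subtype_val) (2 * ‖x‖) (fun φ => hKb φ x)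
      map_add' := by
        intro a b
        ext φ
        obtain ⟨φ, y, hy, rfl⟩ := φ
        exact map_add y a b
      map_smul' := by
        intro r a
        ext φ
        obtain ⟨φ, y, hy, rfl⟩ := φ
        exact map_smul y r a }
  let T : E →L[ℝ] BoundedContinuousFunction K ℝ := T0.mkContinuous 2 (by
    intro x
    rw [BoundedContinuousFunction.norm_le (by positivity)]
    intro φ
    exact hKb φ x)
  have hT : ∀ x (φ : K), T x φ = φ.1 x := fun x φ => rfl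
  have : PosSMulMono ℝ (BoundedContinuousFunction K ℝ) := posBcf
  obtain ⟨S, hS1, hS2, -, -⟩ := h.lift (BoundedContinuousFunction K ℝ) (convexBcf hp) T
  -- evaluations
  have hev : ∀ (y : StrongDual ℝ E) (hy : ‖y‖ ≤ 2), S f ⟨⇑y, y, hy, rfl⟩ = hat y f := by
    intro y hy
    let ev : BoundedContinuousFunction K ℝ →L[ℝ] ℝ :=
      BoundedContinuousFunction.evalCLM ℝ (⟨⇑y, y, hy, rfl⟩ : K)
    have hevh : IsLatticeHom ev := by
      intro a b
      exact ⟨rfl, rfl⟩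
    have hc : ev.comp S = hat y := by
      apply uniq hp h (hS1.comp hevh) (hat1 y)
      intro x
      change (S (δ x)) ⟨⇑y, y, hy, rfl⟩ = hat y (δ x)
      rw [hS2, hat2, hT]
    exact congrArg (fun R : F →L[ℝ] ℝ => R f) hc
  have hx2 : ‖x'‖ ≤ 2 := by linarith
  let k0 : K := ⟨⇑x', x', hx2, rfl⟩
  have hopen : IsOpen {k : K | |S f k - S f k0| < ε} := by
    apply isOpen_lt _ continuous_const
    exact ((S f).continuous.sub continuous_const).abs
  rw [isOpen_induced_iff] at hopen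
  obtain ⟨U, hU, hUeq⟩ := hopen
  have hk0 : k0.1 ∈ U := by
    have : k0 ∈ Subtype.val ⁻¹' U := by
      rw [hUeq]
      change |S f k0 - S f k0| < ε
      rw [sub_self, abs_zero]
      exact hε
    exact this
  rw [isOpen_pi_iff] at hU
  obtain ⟨I, u, hu1, hu2⟩ := hU _ hk0
  refine ⟨I, ?_⟩
  intro w hw hwI
  have hy2 : ‖x' + w‖ ≤ 2 := by
    calc ‖x' + w‖ ≤ ‖x'‖ + ‖w‖ := norm_add_le _ _
      _ ≤ 2 := by linarith
  have hmem : (⟨⇑(x' + w), x' + w, hy2, rfl⟩ : K) ∈ Subtype.val ⁻¹' U := by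
    apply hu2
    intro i hi
    have h1 : (x' + w) i = x' i := by
      have : (x' + w) i = x' i + w i := rfl
      rw [this, hwI i hi, add_zero]
    change (x' + w) i ∈ u i
    rw [h1]
    exact (hu1 i hi).2
  rw [hUeq] at hmem
  have h2 : |S f ⟨⇑(x' + w), x' + w, hy2, rfl⟩ - S f k0| < ε := hmem
  rw [hev _ hy2, hev _ hx2] at h2
  exact h2.le

theorem main {p : ℝ} (hp : 1 ≤ p) {δ : E →L[ℝ] F} (h : IsFreePConvex p δ)
    (x' : StrongDual ℝ E) (φ : F →L[ℝ] ℝ) (hφ : IsLatticeHom φ) (hφδ : ∀ x, φ (δ x) = x' x) :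
    (∃ x : E, ‖x‖ ≤ 1 ∧ x' x = ‖x'‖) ↔ (∃ f : F, ‖f‖ ≤ 1 ∧ φ f = ‖φ‖) := by
  choose hat hat1 hat2 hat3 using fun y => exists_hat hp h y
  have hφhat : φ = hat x' := uniq hp h hφ (hat1 x') (fun x => by rw [hφδ, hat2])
  have hφn : ‖φ‖ = ‖x'‖ := by rw [hφhat, hat3]
  constructor
  · rintro ⟨x, hx, hxx⟩
    refine ⟨δ x, ?_, ?_⟩
    · rw [h.isometry]; exact hx
    · rw [hφδ, hφn, hxx]
  · rintro ⟨f, hf, hff⟩
    rcases eq_or_ne x' 0 with h0 | h0
    · refine ⟨0, by simp, ?_⟩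
      rw [h0]; simp
    have hc : 0 < ‖x'‖ := norm_pos_iff.mpr h0
    let x'' : StrongDual ℝ E := ‖x'‖⁻¹ • x'
    have hx''n : ‖x''‖ = 1 := by
      rw [norm_smul, norm_inv, norm_norm, inv_mul_cancel₀ hc.ne']
    have hat'' : hat x'' = ‖x'‖⁻¹ • φ := by
      apply uniq hp h (hat1 _) (hφ.smul_nonneg (by positivity))
      intro x
      rw [hat2]
      change ‖x'‖⁻¹ * x' x = ‖x'‖⁻¹ * φ (δ x)
      rw [hφδ]
    have hg1 : hat x'' f = 1 := by
      rw [hat'']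
      change ‖x'‖⁻¹ * φ f = 1
      rw [hff, hφn, inv_mul_cancel₀ hc.ne']
    obtain ⟨y, hy, hxy⟩ := NAPoint.exists_point p hp x'' hx''n (fun y => hat y f) hg1
      (fun ι t l y M hl _ hM hyM _ => p_ineq hp h hat hat1 hat2 f hf ι t l y M hl hM hyM)
      (fun ε hε => by
        obtain ⟨S, hS⟩ := finite_dependence hp h hat hat1 hat2 f x'' hx''n.le ε hε
        refine ⟨S, fun w hw hwS => ?_⟩
        have := hS w hw hwS
        rw [hg1] at this
        exact this)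
    refine ⟨y, hy, ?_⟩
    have h1 : ‖x'‖⁻¹ * x' y = 1 := hxy
    field_simp at h1
    exact h1

end Pool.Agent.H47.FBL
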