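import Pool.Agent.H47.FBLDefs

set_option autoImplicit false

/-! Two model Banach lattices: `ℓ_p(ι)` for finite `ι`, and bounded continuous functions. -/

namespace Pool.Agent.H47.FBL

universe u

open scoped ENNReal

section lp

variable {q : ℝ≥0∞} {ι : Type u}

/-- Pointwise order on `PiLp q`. -/
@[reducible] noncomputable def latLp : Lattice (PiLp q (fun _ : ι => ℝ)) where
  le x y := ∀ i, x i ≤ y i
  le_refl x i := le_refl _
  le_trans x y z h1 h2 i := (h1 i).trans (h2 i)
  le_antisymm x y h1 h2 := by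
    ext i
    exact le_antisymm (h1 i) (h2 i)
  sup x y := WithLp.toLp q (fun i => x i ⊔ y i)
  inf x y := WithLp.toLp q (fun i => x i ⊓ y i)
  le_sup_left x y i := le_sup_left
  le_sup_right x y i := le_sup_right
  sup_le x y z h1 h2 i := sup_le (h1 i) (h2 i)
  inf_le_left x y i := inf_le_left
  inf_le_right x y i := inf_le_right
  le_inf x y z h1 h2 i := le_inf (h1 i) (h2 i)

attribute [local instance] latLp

theorem ordLp : IsOrderedAddMonoid (PiLp q (fun _ : ι => ℝ)) where
  add_le_add_left x y h z := by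
    intro i
    have := h i
    simp only [PiLp.add_apply]
    linarith

theorem posLp : PosSMulMono ℝ (PiLp q (fun _ : ι => ℝ)) where
  smul_le_smul_of_nonneg_left a ha x y h := by
    intro i
    simp only [PiLp.smul_apply, smul_eq_mul]
    exact mul_le_mul_of_nonneg_left (h i) ha

theorem sup_lp (x y : PiLp q (fun _ : ι => ℝ)) (i : ι) : (x ⊔ y) i = x i ⊔ y i := rfl

theorem inf_lp (x y : PiLp q (fun _ : ι => ℝ)) (i : ι) : (x ⊓ y) i = x i ⊓ y i := rfl

theorem abs_lp (x : PiLp q (fun _ : ι => ℝ)) (i : ι) : |x| i = |x i| := rfl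

theorem solidLp [Fintype ι] [Fact (1 ≤ q)] (hq : q ≠ ∞) :
    HasSolidNorm (PiLp q (fun _ : ι => ℝ)) where
  solid x y h := by
    have hq1 : 1 ≤ q := Fact.out
    have hq0 : 0 < q.toReal := ENNReal.toReal_pos (by
      intro h0; rw [h0] at hq1; exact absurd hq1 (by simp)) hq
    rw [PiLp.norm_eq_sum hq0, PiLp.norm_eq_sum hq0]
    apply Real.rpow_le_rpow (by positivity) _ (by positivity)
    apply Finset.sum_le_sum
    intro i _
    apply Real.rpow_le_rpow (norm_nonneg _) _ hq0.le
    have := h i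
    rw [abs_lp, abs_lp] at this
    exact this

/-- `ℓ_p(ι)` is `p`-convex with constant `1`. -/
theorem convexLp {p : ℝ} (hp : 1 ≤ p) [Fintype ι] [Fact (1 ≤ ENNReal.ofReal p)] :
    IsPConvex p (PiLp (ENNReal.ofReal p) (fun _ : ι => ℝ)) := by
  intro n x z hz
  have hp0 : 0 < p := by linarith
  have htr : (ENNReal.ofReal p).toReal = p := ENNReal.toReal_ofReal hp0.le
  have hq0 : 0 < (ENNReal.ofReal p).toReal := by rw [htr]; exact hp0
  -- upper bound
  let b : PiLp (ENNReal.ofReal p) (fun _ : ι => ℝ) :=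
    WithLp.toLp _ (fun j => (∑ i, |x i j| ^ p) ^ (1 / p))
  have hb : z ≤ b := by
    apply hz.2
    rintro y ⟨a, ha, rfl⟩
    intro j
    have h1 := ha (fun i => x i j)
    have h2 : (∑ i, a i • x i) j = ∑ i, a i * x i j := by
      simp
    rw [h2]
    exact h1
  have hz0 : 0 ≤ z := by
    apply hz.1
    refine ⟨fun _ => 0, ?_, by simp⟩
    intro t
    simp only [zero_mul, Finset.sum_const_zero]
    positivity
  have hzb : ∀ j, ‖z j‖ ^ p ≤ ∑ i, ‖x i j‖ ^ p := by
    intro j
    have h1 : 0 ≤ z j := hz0 j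
    have h2 : z j ≤ (∑ i, |x i j| ^ p) ^ (1 / p) := hb j
    rw [Real.norm_eq_abs, abs_of_nonneg h1]
    calc (z j) ^ p ≤ ((∑ i, |x i j| ^ p) ^ (1 / p)) ^ p := Real.rpow_le_rpow h1 h2 hp0.le
      _ = ∑ i, |x i j| ^ p := by
        rw [← Real.rpow_mul (by positivity), one_div, inv_mul_cancel₀ hp0.ne', Real.rpow_one]
      _ = ∑ i, ‖x i j‖ ^ p := rfl
  rw [PiLp.norm_eq_sum hq0, htr]
  apply Real.rpow_le_rpow (by positivity) _ (by positivity)
  calc ∑ j, ‖z j‖ ^ p ≤ ∑ j, ∑ i, ‖x i j‖ ^ p := Finset.sum_le_sum (fun j _ => hzb j)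
    _ = ∑ i, ∑ j, ‖x i j‖ ^ p := Finset.sum_comm
    _ = ∑ i, ‖x i‖ ^ p := by
      apply Finset.sum_congr rfl
      intro i _
      rw [PiLp.norm_eq_sum hq0, htr, ← Real.rpow_mul (by positivity), one_div,
        inv_mul_cancel₀ hp0.ne', Real.rpow_one]

end lp

section bcf

variable {K : Type u} [TopologicalSpace K]

open BoundedContinuousFunction

theorem posBcf : PosSMulMono ℝ (K →ᵇ ℝ) where
  smul_le_smul_of_nonneg_left a ha x y h := by
    intro i
    change a * x i ≤ a * y i
    exact mul_le_mul_of_nonneg_left (h i) ha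

/-- Bounded continuous functions form a `p`-convex Banach lattice with constant `1`. -/
theorem convexBcf {p : ℝ} (hp : 1 ≤ p) : IsPConvex p (K →ᵇ ℝ) := by
  intro n x z hz
  have hp0 : 0 < p := by linarith
  -- the function (∑ |x i| ^ p) ^ (1/p)
  have hcont : Continuous (fun k : K => (∑ i, |x i k| ^ p) ^ (1 / p)) := by
    apply Continuous.rpow_const
    · apply continuous_finsetSum
      intro i _
      apply Continuous.rpow_const
      · exact (x i).continuous.abs
      · intro k; right; exact hp0.le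
    · intro k; right; positivity
  have hbd : ∀ k : K, (∑ i, |x i k| ^ p) ^ (1 / p) ≤ (∑ i, ‖x i‖ ^ p) ^ (1 / p) := by
    intro k
    apply Real.rpow_le_rpow (by positivity) _ (by positivity)
    apply Finset.sum_le_sum
    intro i _
    apply Real.rpow_le_rpow (abs_nonneg _) _ hp0.le
    exact (x i).norm_coe_le_norm k
  let b : K →ᵇ ℝ := BoundedContinuousFunction.ofNormedAddCommGroup _ hcont
    ((∑ i, ‖x i‖ ^ p) ^ (1 / p)) (by
      intro k
      rw [Real.norm_eq_abs, abs_of_nonneg (by positivity)]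
      exact hbd k)
  have hb : z ≤ b := by
    apply hz.2
    rintro y ⟨a, ha, rfl⟩
    intro j
    have h1 := ha (fun i => x i j)
    have h2 : (∑ i, a i • x i) j = ∑ i, a i * x i j := by
      simp
    change (∑ i, a i • x i) j ≤ b j
    rw [h2]
    exact h1
  have hz0 : 0 ≤ z := by
    apply hz.1
    refine ⟨fun _ => 0, ?_, by simp⟩
    intro t
    simp only [zero_mul, Finset.sum_const_zero]
    positivity
  rw [BoundedContinuousFunction.norm_le (by positivity)]
  intro k
  have h1 : 0 ≤ z k := hz0 k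
  have h2 : z k ≤ (∑ i, |x i k| ^ p) ^ (1 / p) := hb k
  rw [Real.norm_eq_abs, abs_of_nonneg h1]
  exact h2.trans (hbd k)

end bcf

end Pool.Agent.H47.FBL
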