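import Mathlib

set_option autoImplicit false

namespace Pool.Agent.H47.NACore

open Finset

/-- Quadratic upper bound for `s ^ p` on `[1/2, 3/2]`. -/
theorem rpow_quadratic (p : ℝ) (_ : 1 ≤ p) : ∃ C : ℝ, 0 ≤ C ∧ ∀ s μ : ℝ,
    1 / 2 ≤ s → s ≤ 3 / 2 → 1 / 2 ≤ μ → μ ≤ 3 / 2 →
    s ^ p ≤ μ ^ p + p * μ ^ (p - 1) * (s - μ) + C * (s - μ) ^ 2 := by
  -- derivative of `t ↦ p t^(p-1)` is bounded on `[1/2, 3/2]`
  have hcont : ContinuousOn (fun t : ℝ => |p * ((p - 1) * t ^ (p - 1 - 1))|) (Set.Icc (1/2) (3/2)) := by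
    apply ContinuousOn.abs
    apply ContinuousOn.mul continuousOn_const
    apply ContinuousOn.mul continuousOn_const
    intro t ht
    apply ContinuousAt.continuousWithinAt
    apply Real.continuousAt_rpow_const
    left
    have : (1:ℝ)/2 ≤ t := ht.1
    linarith
  obtain ⟨C, hC⟩ := (isCompact_Icc.bddAbove_image hcont)
  have hC' : ∀ t : ℝ, 1/2 ≤ t → t ≤ 3/2 → |p * ((p - 1) * t ^ (p - 1 - 1))| ≤ C := by
    intro t h1 h2
    exact hC (Set.mem_image_of_mem _ ⟨h1, h2⟩)
  have hC0 : 0 ≤ C := le_trans (abs_nonneg _) (hC' 1 (by norm_num) (by norm_num))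
  refine ⟨C, hC0, ?_⟩
  intro s μ hs1 hs2 hm1 hm2
  -- Lipschitz bound for the derivative
  have hconv : Convex ℝ (Set.Icc (1/2:ℝ) (3/2)) := convex_Icc _ _
  have hlip : ∀ t ∈ Set.Icc (1/2:ℝ) (3/2), |p * t ^ (p - 1) - p * μ ^ (p - 1)| ≤ C * |t - μ| := by
    intro t ht
    have := hconv.norm_image_sub_le_of_norm_hasDerivWithin_le (f := fun t : ℝ => p * t ^ (p - 1))
      (f' := fun t : ℝ => p * ((p - 1) * t ^ (p - 1 - 1))) (C := C) (x := μ) (y := t)
      (by
        intro y hy
        apply HasDerivAt.hasDerivWithinAt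
        apply HasDerivAt.const_mul
        have hy0 : y ≠ 0 := by
          have : (1:ℝ)/2 ≤ y := hy.1
          linarith
        exact Real.hasDerivAt_rpow_const (Or.inl hy0))
      (by intro y hy; rw [Real.norm_eq_abs]; exact hC' y hy.1 hy.2)
      ⟨hm1, hm2⟩ ht
    simpa [Real.norm_eq_abs] using this
  -- now the function `h t = t^p - p μ^(p-1) t`
  have hseg : Convex ℝ (Set.uIcc μ s) := convex_uIcc _ _
  have hsub : Set.uIcc μ s ⊆ Set.Icc (1/2:ℝ) (3/2) := Set.uIcc_subset_Icc ⟨hm1, hm2⟩ ⟨hs1, hs2⟩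
  have key := hseg.norm_image_sub_le_of_norm_hasDerivWithin_le
      (f := fun t : ℝ => t ^ p - p * μ ^ (p - 1) * t)
      (f' := fun t : ℝ => p * t ^ (p - 1) - p * μ ^ (p - 1)) (C := C * |s - μ|) (x := μ) (y := s)
      (by
        intro y hy
        apply HasDerivAt.hasDerivWithinAt
        have hy0 : y ≠ 0 := by
          have : (1:ℝ)/2 ≤ y := (hsub hy).1
          linarith
        have h1 := Real.hasDerivAt_rpow_const (x := y) (p := p) (Or.inl hy0)
        have h2 := (hasDerivAt_id y).const_mul (p * μ ^ (p - 1))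
        simpa using h1.fun_sub h2)
      (by
        intro y hy
        rw [Real.norm_eq_abs]
        refine (hlip y (hsub hy)).trans ?_
        apply mul_le_mul_of_nonneg_left _ hC0
        exact Set.abs_sub_left_of_mem_uIcc hy)
      Set.left_mem_uIcc Set.right_mem_uIcc
  rw [Real.norm_eq_abs, Real.norm_eq_abs] at key
  have h3 := le_of_abs_le key
  have h4 : C * |s - μ| * |s - μ| = C * (s - μ)^2 := by
    rw [mul_assoc, ← sq, sq_abs]
  rw [h4] at h3
  linarith


/-- One dimensional mean estimate: the `L_p` mean of `s_i` close to their mean. -/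
theorem mean_bound (p : ℝ) (hp : 1 ≤ p) : ∃ K : ℝ, 0 ≤ K ∧ ∀ (ι : Type) (t : Finset ι) (l : ι → ℝ)
    (s : ι → ℝ) (m : ℝ), (∀ i ∈ t, 0 ≤ l i) → ∑ i ∈ t, l i = 1 →
    (∀ i ∈ t, 1 / 2 ≤ s i) → (∀ i ∈ t, s i ≤ 3 / 2) →
    ∑ i ∈ t, l i * (s i - ∑ j ∈ t, l j * s j) ^ 2 ≤ m →
    ∑ i ∈ t, l i * (s i) ^ p ≤ (∑ j ∈ t, l j * s j + K * m) ^ p := by
  obtain ⟨C, hC0, hC⟩ := rpow_quadratic p hp
  -- K = C / (p (1/2)^(p-1))
  have hpp : 0 < p := by linarith
  have hh : 0 < p * (1/2:ℝ) ^ (p - 1) := by positivity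
  refine ⟨C / (p * (1/2:ℝ) ^ (p - 1)), by positivity, ?_⟩
  intro ι t l s m hl hl1 hs1 hs2 hm
  set μ := ∑ j ∈ t, l j * s j with hμ
  have hm0 : 0 ≤ m := le_trans (Finset.sum_nonneg (fun i hi => mul_nonneg (hl i hi) (sq_nonneg _))) hm
  have hμ1 : 1 / 2 ≤ μ := by
    calc (1:ℝ)/2 = ∑ j ∈ t, l j * (1/2) := by rw [← Finset.sum_mul, hl1]; ring
      _ ≤ μ := Finset.sum_le_sum (fun i hi => mul_le_mul_of_nonneg_left (hs1 i hi) (hl i hi))
  have hμ2 : μ ≤ 3 / 2 := by
    calc μ ≤ ∑ j ∈ t, l j * (3/2) :=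
          Finset.sum_le_sum (fun i hi => mul_le_mul_of_nonneg_left (hs2 i hi) (hl i hi))
      _ = 3/2 := by rw [← Finset.sum_mul, hl1]; ring
  have hμ0 : 0 < μ := by linarith
  have h1 : ∑ i ∈ t, l i * (s i) ^ p ≤ μ ^ p + C * m := by
    calc ∑ i ∈ t, l i * (s i) ^ p
        ≤ ∑ i ∈ t, l i * (μ ^ p + p * μ ^ (p - 1) * (s i - μ) + C * (s i - μ) ^ 2) :=
          Finset.sum_le_sum (fun i hi => mul_le_mul_of_nonneg_left
            (hC (s i) μ (hs1 i hi) (hs2 i hi) hμ1 hμ2) (hl i hi))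
      _ = μ ^ p * ∑ i ∈ t, l i + p * μ ^ (p - 1) * (∑ i ∈ t, l i * s i - μ * ∑ i ∈ t, l i)
            + C * ∑ i ∈ t, l i * (s i - μ) ^ 2 := by
          rw [Finset.mul_sum, Finset.mul_sum, Finset.mul_sum, ← Finset.sum_sub_distrib,
            Finset.mul_sum, ← Finset.sum_add_distrib, ← Finset.sum_add_distrib]
          apply Finset.sum_congr rfl
          intro i _
          ring
      _ ≤ μ ^ p + C * m := by
          rw [hl1, ← hμ]
          have := mul_le_mul_of_nonneg_left hm hC0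
          linarith
  refine h1.trans ?_
  -- Bernoulli / convexity: (μ + Km)^p ≥ μ^p + p μ^(p-1) K m
  set K := C / (p * (1/2:ℝ) ^ (p - 1)) with hK
  have hK0 : 0 ≤ K := by positivity
  have hb : 1 + p * (K * m / μ) ≤ (1 + K * m / μ) ^ p :=
    one_add_mul_self_le_rpow_one_add (by have : 0 ≤ K * m / μ := by positivity
                                         linarith) hp
  have h2 : (μ + K * m) ^ p = μ ^ p * (1 + K * m / μ) ^ p := by
    rw [← Real.mul_rpow hμ0.le (by positivity)]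
    congr 1
    field_simp
  rw [h2]
  have hμp : 0 < μ ^ p := by positivity
  have h3 : μ ^ p * (1 + p * (K * m / μ)) ≤ μ ^ p * (1 + K * m / μ) ^ p :=
    mul_le_mul_of_nonneg_left hb hμp.le
  refine le_trans ?_ h3
  have h4 : μ ^ p * (1 + p * (K * m / μ)) = μ ^ p + p * μ ^ (p - 1) * K * m := by
    rw [Real.rpow_sub hμ0, Real.rpow_one]
    field_simp
  rw [h4]
  have h5 : C ≤ p * μ ^ (p - 1) * K := by
    have h6 : (1/2:ℝ) ^ (p - 1) ≤ μ ^ (p - 1) :=
      Real.rpow_le_rpow (by norm_num) hμ1 (by linarith)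
    have h7 : p * (1/2:ℝ) ^ (p - 1) * K = C := by
      rw [hK]; field_simp
    calc C = p * (1/2:ℝ) ^ (p - 1) * K := h7.symm
      _ ≤ p * μ ^ (p - 1) * K := by
        apply mul_le_mul_of_nonneg_right _ hK0
        exact mul_le_mul_of_nonneg_left h6 hpp.le
  have := mul_le_mul_of_nonneg_right h5 hm0
  linarith


variable {E : Type*} [NormedAddCommGroup E] [NormedSpace ℝ E]

/-- The convexity-type inequality satisfied near a functional at which `g` attains the value `1`. -/
theorem star (p : ℝ) (hp : 1 ≤ p) : ∃ K : ℝ, 0 ≤ K ∧ ∀ (x' : StrongDual ℝ E) (_ : ‖x'‖ = 1)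
    (g : StrongDual ℝ E → ℝ)
    (_ : ∀ (ι : Type) (t : Finset ι) (l : ι → ℝ) (y : ι → StrongDual ℝ E) (M : ℝ),
      (∀ i ∈ t, 0 ≤ l i) → ∑ i ∈ t, l i = 1 → 0 ≤ M →
      (∀ x : E, ‖x‖ ≤ 1 → ∑ i ∈ t, l i * |y i x| ^ p ≤ M ^ p) →
      (∀ i ∈ t, ‖y i‖ ≤ 2) →
      ∑ i ∈ t, l i * |g (y i)| ^ p ≤ M ^ p)
    (ι : Type) (t : Finset ι) (l : ι → ℝ) (w : ι → StrongDual ℝ E),
    (∀ i ∈ t, 0 ≤ l i) → ∑ i ∈ t, l i = 1 → (∀ i ∈ t, ‖w i‖ ≤ 1 / 16) →
    ∑ i ∈ t, l i * g (x' + w i) ≤ ‖x' + ∑ i ∈ t, l i • w i‖ + K * ∑ i ∈ t, l i * ‖w i‖ ^ 2 := by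
  obtain ⟨K, hK0, hK⟩ := mean_bound p hp
  refine ⟨K, hK0, ?_⟩
  intro x' hx' g h2 ι t l w hl hl1 hw
  have hpp : 0 < p := by linarith
  set wb := ∑ i ∈ t, l i • w i with hwb
  set ρ := ‖x' + wb‖ with hρ
  set m := ∑ i ∈ t, l i * ‖w i‖ ^ 2 with hm
  have hm0 : 0 ≤ m := Finset.sum_nonneg (fun i hi => mul_nonneg (hl i hi) (sq_nonneg _))
  have hwbn : ‖wb‖ ≤ 1 / 16 := by
    calc ‖wb‖ ≤ ∑ i ∈ t, ‖l i • w i‖ := norm_sum_le _ _
      _ ≤ ∑ i ∈ t, l i * (1/16) := by
        apply Finset.sum_le_sum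
        intro i hi
        rw [norm_smul, Real.norm_eq_abs, abs_of_nonneg (hl i hi)]
        exact mul_le_mul_of_nonneg_left (hw i hi) (hl i hi)
      _ = 1/16 := by rw [← Finset.sum_mul, hl1]; ring
  have hρ1 : 15 / 16 ≤ ρ := by
    have := norm_sub_norm_le x' (-wb)
    rw [sub_neg_eq_add, norm_neg, hx'] at this
    linarith
  have hM0 : 0 ≤ ρ + K * m := by positivity
  have main : ∑ i ∈ t, l i * |g (x' + w i)| ^ p ≤ (ρ + K * m) ^ p := by
    apply h2 ι t l (fun i => x' + w i) (ρ + K * m) hl hl1 hM0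
    · intro x hx
      have hb : ∀ i ∈ t, |w i x| ≤ ‖w i‖ := by
        intro i _
        calc |w i x| ≤ ‖w i‖ * ‖x‖ := (w i).le_opNorm x
          _ ≤ ‖w i‖ * 1 := mul_le_mul_of_nonneg_left hx (norm_nonneg _)
          _ = ‖w i‖ := mul_one _
      have ha : |x' x| ≤ 1 := by
        calc |x' x| ≤ ‖x'‖ * ‖x‖ := x'.le_opNorm x
          _ ≤ 1 := by rw [hx', one_mul]; exact hx
      have hwbx : wb x = ∑ i ∈ t, l i * w i x := by
        rw [hwb]; simp
      have hmax : |x' x + wb x| ≤ ρ := by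
        have := (x' + wb).le_opNorm x
        calc |x' x + wb x| = ‖(x' + wb) x‖ := rfl
          _ ≤ ‖x' + wb‖ * ‖x‖ := this
          _ ≤ ρ * 1 := mul_le_mul_of_nonneg_left hx (norm_nonneg _)
          _ = ρ := mul_one _
      -- a general claim for a sign
      have claim : ∀ e : ℝ, (e = 1 ∨ e = -1) → 3 / 4 ≤ e * x' x →
          ∑ i ∈ t, l i * |(x' + w i) x| ^ p ≤ (ρ + K * m) ^ p := by
        intro e he hea
        have hee : e * e = 1 := by rcases he with h | h <;> rw [h] <;> norm_num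
        have heab : |e| = 1 := by rcases he with h | h <;> rw [h] <;> norm_num
        have hbe : ∀ i ∈ t, |e * w i x| ≤ 1 / 16 := by
          intro i hi
          rw [abs_mul, heab, one_mul]
          exact (hb i hi).trans (hw i hi)
        have hea1 : e * x' x ≤ 1 := by
          have : |e * x' x| ≤ 1 := by rw [abs_mul, heab, one_mul]; exact ha
          exact (abs_le.mp this).2
        have hs1 : ∀ i ∈ t, 1 / 2 ≤ e * x' x + e * w i x := by
          intro i hi
          have := (abs_le.mp (hbe i hi)).1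
          linarith
        have hs2 : ∀ i ∈ t, e * x' x + e * w i x ≤ 3 / 2 := by
          intro i hi
          have := (abs_le.mp (hbe i hi)).2
          linarith
        have hmu : ∑ j ∈ t, l j * (e * x' x + e * w j x) = e * x' x + e * wb x := by
          rw [hwbx, Finset.mul_sum]
          have : ∀ j ∈ t, l j * (e * x' x + e * w j x) = l j * (e * x' x) + e * (l j * w j x) := by
            intro j _; ring
          rw [Finset.sum_congr rfl this, Finset.sum_add_distrib, ← Finset.sum_mul, hl1, one_mul]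
        have hvar : ∑ i ∈ t, l i * ((e * x' x + e * w i x) -
            ∑ j ∈ t, l j * (e * x' x + e * w j x)) ^ 2 ≤ m := by
          rw [hmu]
          have h1 : ∀ i ∈ t, l i * ((e * x' x + e * w i x) - (e * x' x + e * wb x)) ^ 2
              = l i * (w i x) ^ 2 - 2 * wb x * (l i * w i x) + (wb x) ^ 2 * l i := by
            intro i _
            have : ((e * x' x + e * w i x) - (e * x' x + e * wb x)) ^ 2
              = (e * e) * (w i x - wb x) ^ 2 := by ring
            rw [this, hee]; ring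
          rw [Finset.sum_congr rfl h1, Finset.sum_add_distrib, Finset.sum_sub_distrib,
            ← Finset.mul_sum, ← Finset.mul_sum, hl1, ← hwbx]
          have h2 : ∑ i ∈ t, l i * (w i x) ^ 2 ≤ m := by
            rw [hm]
            apply Finset.sum_le_sum
            intro i hi
            apply mul_le_mul_of_nonneg_left _ (hl i hi)
            rw [← sq_abs]
            exact pow_le_pow_left₀ (abs_nonneg _) (hb i hi) 2
          nlinarith [sq_nonneg (wb x)]
        have h3 := hK ι t l (fun i => e * x' x + e * w i x) m hl hl1 hs1 hs2 hvar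
        have h4 : ∀ i ∈ t, l i * |(x' + w i) x| ^ p = l i * (e * x' x + e * w i x) ^ p := by
          intro i hi
          have : |(x' + w i) x| = e * x' x + e * w i x := by
            have h5 : (x' + w i) x = x' x + w i x := rfl
            rw [h5, ← abs_of_nonneg (a := e * x' x + e * w i x) (by linarith [hs1 i hi]),
              ← mul_add, abs_mul, heab, one_mul]
          rw [this]
        rw [Finset.sum_congr rfl h4]
        refine h3.trans ?_
        rw [hmu]
        apply Real.rpow_le_rpow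
        · have : 1/2 ≤ e * x' x + e * wb x := by
            rw [← hmu]
            calc (1:ℝ)/2 = ∑ j ∈ t, l j * (1/2) := by rw [← Finset.sum_mul, hl1]; ring
              _ ≤ _ := Finset.sum_le_sum (fun i hi => mul_le_mul_of_nonneg_left (hs1 i hi) (hl i hi))
          positivity
        · have : e * x' x + e * wb x ≤ ρ := by
            calc e * x' x + e * wb x = e * (x' x + wb x) := by ring
              _ ≤ |e * (x' x + wb x)| := le_abs_self _
              _ = |x' x + wb x| := by rw [abs_mul, heab, one_mul]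
              _ ≤ ρ := hmax
          linarith
        · exact hpp.le
      by_cases hc1 : 3 / 4 ≤ x' x
      · exact claim 1 (Or.inl rfl) (by linarith)
      by_cases hc2 : x' x ≤ - (3 / 4)
      · exact claim (-1) (Or.inr rfl) (by linarith)
      -- middle case
      push Not at hc1 hc2
      have hmid : ∀ i ∈ t, |(x' + w i) x| ≤ 13 / 16 := by
        intro i hi
        have h5 : (x' + w i) x = x' x + w i x := rfl
        rw [h5, abs_le]
        have h6 := abs_le.mp ((hb i hi).trans (hw i hi))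
        constructor <;> linarith [h6.1, h6.2]
      calc ∑ i ∈ t, l i * |(x' + w i) x| ^ p ≤ ∑ i ∈ t, l i * (13/16:ℝ) ^ p := by
            apply Finset.sum_le_sum
            intro i hi
            apply mul_le_mul_of_nonneg_left _ (hl i hi)
            exact Real.rpow_le_rpow (abs_nonneg _) (hmid i hi) hpp.le
        _ = (13/16:ℝ) ^ p := by rw [← Finset.sum_mul, hl1, one_mul]
        _ ≤ (ρ + K * m) ^ p := by
            apply Real.rpow_le_rpow (by norm_num) _ hpp.le
            have : 0 ≤ K * m := by positivity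
            linarith
    · intro i hi
      calc ‖x' + w i‖ ≤ ‖x'‖ + ‖w i‖ := norm_add_le _ _
        _ ≤ 1 + 1/16 := add_le_add hx'.le (hw i hi)
        _ ≤ 2 := by norm_num
  -- Jensen
  have hj := Real.rpow_arith_mean_le_arith_mean_rpow t l (fun i => |g (x' + w i)|) hl hl1
    (fun i _ => abs_nonneg _) hp
  have h6 := hj.trans main
  have h7 : ∑ i ∈ t, l i * |g (x' + w i)| ≤ ρ + K * m := by
    rwa [Real.rpow_le_rpow_iff (Finset.sum_nonneg (fun i hi => mul_nonneg (hl i hi) (abs_nonneg _)))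
      hM0 hpp] at h6
  refine le_trans ?_ h7
  apply Finset.sum_le_sum
  intro i hi
  exact mul_le_mul_of_nonneg_left (le_abs_self _) (hl i hi)

end Pool.Agent.H47.NACore
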